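import Pool.Agent.helper64.OT.SpecF

/-!
# ot:MED, what has to be proved (helper89)
-/

set_option autoImplicit false

namespace Pool.Agent.OT

open Finset

theorem MED_large (e : ℝ) (he : 0 < e) (M : ℝ) : ∃ p₀ : ℕ, ∀ p : ℕ, p₀ < p → M ≤ (p : ℝ) ^ e := by
  have h := ((tendsto_rpow_atTop he).comp tendsto_natCast_atTop_atTop).eventually_ge_atTop M
  obtain ⟨p₀, hp₀⟩ := Filter.eventually_atTop.1 h
  exact ⟨p₀, fun p hp => hp₀ p hp.le⟩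

theorem MED_sum {p : ℕ} [Fact p.Prime] (N : ℕ) (X : Finset (ZMod p)) (hX : ∀ x ∈ X, x.val < N) (f : ZMod p → ℝ)
    (hf : ∀ x, 0 ≤ f x) : ∑ x ∈ X, f x ≤ ∑ n ∈ range N, f (n : ZMod p) := by
  have h1 : ∑ x ∈ X, f x = ∑ n ∈ X.image ZMod.val, f ((n : ℕ) : ZMod p) := by
    rw [Finset.sum_image (fun x _ y _ h => ZMod.val_injective p h)]
    refine Finset.sum_congr rfl fun x _ => ?_
    rw [ZMod.natCast_zmod_val]
  rw [h1]
  refine Finset.sum_le_sum_of_subset_of_nonneg (fun n hn => ?_) (fun n _ _ => hf _)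
  obtain ⟨x, hx, rfl⟩ := Finset.mem_image.1 hn
  exact Finset.mem_range.2 (hX x hx)

theorem MED (hSIZ : SIZ_stmt) : MED_stmt := by
  intro ε κ hε hκ
  obtain ⟨c₁, p₁, hc₁, h₁⟩ := hSIZ ε (κ / 8) hε (by positivity)
  obtain ⟨p₂, h₂⟩ := MED_large (3 * κ / 16) (by positivity) (10 ^ 3)
  refine ⟨min c₁ (κ / 4), max p₁ p₂, lt_min hc₁ (by positivity), ?_⟩
  intro p _ hp χ N X B β hχ hβ hX hXc hXB hmain
  have hp1 : p₁ < p := (le_max_left _ _).trans_lt hp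
  have hp2 : p₂ < p := (le_max_right _ _).trans_lt hp
  have hpR : (1 : ℝ) ≤ p := by exact_mod_cast (Fact.out : p.Prime).one_lt.le
  have hp0 : (0 : ℝ) < p := by linarith
  rcases h₁ p hp1 χ X B hχ hXc hXB with h | ⟨hx1, hx2, hb1, hb2⟩
  · refine (h β hβ).trans (mul_le_mul_of_nonneg_right ?_ (by positivity))
    exact Real.rpow_le_rpow_of_exponent_le hpR (neg_le_neg (min_le_left _ _))
  · have hM := hmain hb1 hb2
    have hS1 : (∑ x ∈ X, ‖FB χ B β x‖) ^ 2 ≤ X.card * ∑ x ∈ X, ‖FB χ B β x‖ ^ 2 := sq_sum_le_card_mul_sum_sq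
    have hS2 : ∑ x ∈ X, ‖FB χ B β x‖ ^ 2 ≤ ∑ n ∈ range N, ‖FB χ B β (n : ZMod p)‖ ^ 2 :=
      MED_sum N X hX (fun x => ‖FB χ B β x‖ ^ 2) fun x => by positivity
    have e1 : (p : ℝ) ^ (1 / 2 - κ) = (p : ℝ) ^ (1 / 2 - κ / 8) * ((p : ℝ) ^ (-(7 * κ / 16))) ^ 2 := by
      rw [← Real.rpow_natCast, ← Real.rpow_mul hp0.le, ← Real.rpow_add hp0]
      congr 1
      push_cast
      ring
    have hS3 : (∑ x ∈ X, ‖FB χ B β x‖) ^ 2 ≤ (10 ^ 3 * (p : ℝ) ^ (-(7 * κ / 16)) * (X.card * B.card)) ^ 2 := by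
      refine hS1.trans ?_
      have h3 : (X.card : ℝ) * ∑ x ∈ X, ‖FB χ B β x‖ ^ 2 ≤ X.card * (10 ^ 6 * (p : ℝ) ^ (1 / 2 - κ) * (B.card : ℝ) ^ 2) :=
        mul_le_mul_of_nonneg_left (hS2.trans hM) (by positivity)
      refine h3.trans ?_
      rw [e1]
      have h4 : (X.card : ℝ) * (10 ^ 6 * ((p : ℝ) ^ (1 / 2 - κ / 8) * ((p : ℝ) ^ (-(7 * κ / 16))) ^ 2) * (B.card : ℝ) ^ 2) =
          (X.card : ℝ) * 10 ^ 6 * ((p : ℝ) ^ (-(7 * κ / 16))) ^ 2 * (B.card : ℝ) ^ 2 * (p : ℝ) ^ (1 / 2 - κ / 8) := by ring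
      have h5 : (10 ^ 3 * (p : ℝ) ^ (-(7 * κ / 16)) * (X.card * B.card)) ^ 2 =
          (X.card : ℝ) * 10 ^ 6 * ((p : ℝ) ^ (-(7 * κ / 16))) ^ 2 * (B.card : ℝ) ^ 2 * X.card := by ring
      rw [h4, h5]
      exact mul_le_mul_of_nonneg_left hx1 (by positivity)
    have hS4 : ∑ x ∈ X, ‖FB χ B β x‖ ≤ 10 ^ 3 * (p : ℝ) ^ (-(7 * κ / 16)) * (X.card * B.card) :=
      le_of_sq_le_sq hS3 (by positivity)
    refine hS4.trans ?_
    have h6 : (10 : ℝ) ^ 3 * (p : ℝ) ^ (-(7 * κ / 16)) ≤ (p : ℝ) ^ (-min c₁ (κ / 4)) := by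
      have h7 : (10 : ℝ) ^ 3 * (p : ℝ) ^ (-(7 * κ / 16)) ≤ (p : ℝ) ^ (3 * κ / 16) * (p : ℝ) ^ (-(7 * κ / 16)) :=
        mul_le_mul_of_nonneg_right (h₂ p hp2) (by positivity)
      refine h7.trans ?_
      rw [← Real.rpow_add hp0]
      refine Real.rpow_le_rpow_of_exponent_le hpR ?_
      have h8 := min_le_right c₁ (κ / 4)
      linarith
    refine (mul_le_mul_of_nonneg_right h6 (by positivity)).trans ?_
    refine mul_le_mul_of_nonneg_left ?_ (by positivity)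
    have h9 := Real.sqrt_nonneg ((p : ℝ) * (X.card * B.card))
    linarith

end Pool.Agent.OT
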